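import Pool.Agent.R444.LS.Outer

/-!
# The Diophantine condition is not necessary for property (H)

For `n = 2` the matrix `Θ = √2 · 1` is not badly approximable: for every `u` there is `v ≠ 0` with
`v · u = 0`. It has property (H): for `m ∈ ℤ²`, `m ≠ 0`, some coordinate of `√2 m` is badly
approximable, and summation by parts in the direction of this coordinate gives the analytic
continuation of `f_{√2 m}`, with bounds which are polynomial in `m`.
-/

set_option autoImplicit false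

open Complex

namespace Pool.Agent.Results.MP_6f2e8a_an.NotNecessary

/-- The Euclidean norm of an integer vector. -/
noncomputable def eNorm {n : ℕ} (k : Fin n → ℤ) : ℝ := √(∑ j, (k j : ℝ) ^ 2)

/-- The lattice series `f_a(s) = ∑' P(k) ‖k‖^{-s} e^{2πi k·a}`, the sum over `k ≠ 0`. -/
noncomputable def latSeries {n : ℕ} (P : MvPolynomial (Fin n) ℂ) (a : Fin n → ℝ) (s : ℂ) : ℂ :=
  ∑' k : {k : Fin n → ℤ // k ≠ 0}, MvPolynomial.eval (fun j => (k.1 j : ℂ)) P *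
    ((eNorm k.1 : ℝ) : ℂ) ^ (-s) * cexp (2 * Real.pi * I * ∑ j, (k.1 j : ℂ) * (a j : ℂ))

/-- Rapidly decreasing sequences on `(ℤ^n)^q`. -/
def Rapid {q n : ℕ} (b : (Fin q → Fin n → ℤ) → ℂ) : Prop :=
  ∀ m : Fin q → Fin n → ℕ, ∃ C : ℝ, ∀ l, (∏ i, ∏ j, |(l i j : ℝ)| ^ (m i j)) * ‖b l‖ ≤ C

/-- `∑ i, ε i • l i`. -/
def comb {q n : ℕ} (ε : Fin q → ℤ) (l : Fin q → Fin n → ℤ) : Fin n → ℤ :=
  fun j => ∑ i, ε i * l i j

/-- `g₀(s)`, the sum over the `l` with `∑ ε_i l_i ≠ 0`. -/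
noncomputable def g0 {q n : ℕ} (Θ : Matrix (Fin n) (Fin n) ℝ) (P : MvPolynomial (Fin n) ℂ)
    (b : (Fin q → Fin n → ℤ) → ℂ) (ε : Fin q → ℤ) (s : ℂ) : ℂ :=
  ∑' l : {l : Fin q → Fin n → ℤ // comb ε l ≠ 0},
    b l.1 * latSeries P (Θ.mulVec (fun j => (comb ε l.1 j : ℝ))) s

/-- Property (H): `g₀` extends to an entire function. -/
def PropH {n : ℕ} (Θ : Matrix (Fin n) (Fin n) ℝ) : Prop :=
  ∀ q : ℕ, 1 ≤ q → ∀ (d : ℕ) (P : MvPolynomial (Fin n) ℂ), P.IsHomogeneous d →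
    ∀ b : (Fin q → Fin n → ℤ) → ℂ, Rapid b →
      ∀ ε : Fin q → ℤ, (∀ i, ε i = -1 ∨ ε i = 0 ∨ ε i = 1) →
        ∃ G : ℂ → ℂ, Differentiable ℂ G ∧ ∀ s : ℂ, (n : ℝ) + d < s.re → G s = g0 Θ P b ε s

/-- Badly approximable vectors. -/
def BadVec {n : ℕ} (a : Fin n → ℝ) : Prop :=
  ∃ δ : ℝ, 0 < δ ∧ ∃ c : ℝ, 0 < c ∧ ∀ v : Fin n → ℤ, v ≠ 0 → ∀ m : ℤ,
    c * (eNorm v) ^ (-δ) ≤ |∑ j, (v j : ℝ) * a j - m|

/-- Badly approximable matrices. -/
def BadMat {n : ℕ} (Θ : Matrix (Fin n) (Fin n) ℝ) : Prop :=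
  ∃ u : Fin n → ℤ, BadVec (Θ.transpose.mulVec (fun j => (u j : ℝ)))

open Pool.Agent.R444.LS

lemma rapid_sz {q : ℕ} (b : (Fin q → Fin 2 → ℤ) → ℂ) (hb : Rapid b) (M : ℕ) :
    ∃ C : ℝ, ∀ l, sz l ^ M * ‖b l‖ ≤ C := by
  have hex : ∀ p : Fin q → Fin 2 → Bool, ∃ C : ℝ, ∀ l : Fin q → Fin 2 → ℤ,
      (∏ i, ∏ j, |(l i j : ℝ)| ^ (if p i j then M else 0)) * ‖b l‖ ≤ C :=
    fun p => hb (fun i j => if p i j then M else 0)
  choose C hC using hex
  refine ⟨(∏ _i : Fin q, ∏ _j : Fin 2, (2 : ℝ) ^ M) * ∑ p, |C p|, fun l => ?_⟩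
  obtain ⟨p, hp⟩ : ∃ p : Fin q → Fin 2 → Bool, p = fun i j => decide (l i j ≠ 0) := ⟨_, rfl⟩
  have h1 : sz l ^ M ≤ (∏ _i : Fin q, ∏ _j : Fin 2, (2 : ℝ) ^ M) *
      ∏ i, ∏ j, |(l i j : ℝ)| ^ (if p i j then M else 0) := by
    rw [sz, ← Finset.prod_pow, ← Finset.prod_mul_distrib]
    apply Finset.prod_le_prod
    · intro i _
      positivity
    · intro i _
      rw [← Finset.prod_pow, ← Finset.prod_mul_distrib]
      apply Finset.prod_le_prod
      · intro j _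
        positivity
      · intro j _
        by_cases h : l i j = 0
        · rw [hp]
          simp only [h]
          simp
          exact one_le_pow₀ (by norm_num)
        · have h2 : p i j = true := by rw [hp]; simp [h]
          rw [h2, if_pos rfl, ← mul_pow]
          have h3 : (1 : ℝ) ≤ |(l i j : ℝ)| := by exact_mod_cast Int.one_le_abs h
          gcongr
          linarith
  have h2 : |C p| ≤ ∑ p, |C p| :=
    Finset.single_le_sum (f := fun p => |C p|) (fun p _ => abs_nonneg _) (Finset.mem_univ p)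
  calc sz l ^ M * ‖b l‖ ≤ ((∏ _i : Fin q, ∏ _j : Fin 2, (2 : ℝ) ^ M) *
      ∏ i, ∏ j, |(l i j : ℝ)| ^ (if p i j then M else 0)) * ‖b l‖ := by gcongr
    _ = (∏ _i : Fin q, ∏ _j : Fin 2, (2 : ℝ) ^ M) *
        ((∏ i, ∏ j, |(l i j : ℝ)| ^ (if p i j then M else 0)) * ‖b l‖) := by ring
    _ ≤ (∏ _i : Fin q, ∏ _j : Fin 2, (2 : ℝ) ^ M) * ∑ p, |C p| := by
        gcongr
        exact (hC p l).trans ((le_abs_self _).trans h2)

lemma comb_le {q : ℕ} (ε : Fin q → ℤ) (hε : ∀ i, ε i = -1 ∨ ε i = 0 ∨ ε i = 1)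
    (l : Fin q → Fin 2 → ℤ) (j : Fin 2) : |(comb ε l j : ℝ)| ≤ sz l := by
  have h1 : ∀ i, |(l i j : ℝ)| ≤ ∏ j, (1 + |(l i j : ℝ)|) - 1 := by
    intro i
    have h2 := one_le_prod' Finset.univ (fun j => |(l i j : ℝ)|) (fun j _ => abs_nonneg _)
    have h3 : |(l i j : ℝ)| ≤ ∑ j, |(l i j : ℝ)| :=
      Finset.single_le_sum (f := fun j => |(l i j : ℝ)|) (fun p _ => abs_nonneg _)
        (Finset.mem_univ j)
    linarith
  have h2 : |(comb ε l j : ℝ)| ≤ ∑ i, |(l i j : ℝ)| := by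
    rw [comb]
    push_cast
    refine (Finset.abs_sum_le_sum_abs _ _).trans ?_
    apply Finset.sum_le_sum
    intro i _
    rw [abs_mul]
    rcases hε i with h | h | h <;> simp [h]
  have h3 := one_le_prod' Finset.univ (fun i => ∏ j, (1 + |(l i j : ℝ)|) - 1)
    (fun i _ => (abs_nonneg _).trans (h1 i))
  have h4 : ∏ i, (1 + (∏ j, (1 + |(l i j : ℝ)|) - 1)) = sz l := by
    rw [sz]
    apply Finset.prod_congr rfl
    intro i _
    ring
  rw [h4] at h3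
  have h5 : ∑ i, |(l i j : ℝ)| ≤ ∑ i, (∏ j, (1 + |(l i j : ℝ)|) - 1) :=
    Finset.sum_le_sum fun i _ => h1 i
  linarith

/-- the matrix `√2 · 1` -/
noncomputable def Th : Matrix (Fin 2) (Fin 2) ℝ := √2 • (1 : Matrix (Fin 2) (Fin 2) ℝ)

lemma Th_mulVec (x : Fin 2 → ℝ) : Th.mulVec x = fun j => √2 * x j := by
  rw [Th, Matrix.smul_mulVec, Matrix.one_mulVec]
  rfl

lemma Th_transpose : Th.transpose = Th := by
  rw [Th, Matrix.transpose_smul, Matrix.transpose_one]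

lemma not_bad : ¬ BadMat Th := by
  rintro ⟨u, δ, -, c, hc, h⟩
  rw [Th_transpose, Th_mulVec] at h
  have key : ∃ v : Fin 2 → ℤ, v ≠ 0 ∧ ∑ j, (v j : ℝ) * (√2 * (u j : ℝ)) = 0 := by
    by_cases hu : u = 0
    · refine ⟨fun _ => 1, fun h0 => ?_, by simp [hu]⟩
      have := congrFun h0 0
      simp at this
    · refine ⟨![-(u 1), u 0], fun h0 => hu ?_, ?_⟩
      · have h1 := congrFun h0 0
        have h2 := congrFun h0 1
        simp at h1 h2
        funext j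
        fin_cases j
        · exact h2
        · exact h1
      · rw [Fin.sum_univ_two]
        simp
        ring
  obtain ⟨v, hv, hv0⟩ := key
  have h1 := h v hv 0
  rw [hv0] at h1
  have h2 : 0 < eNorm v := by
    rw [eNorm]
    apply Real.sqrt_pos.mpr
    obtain ⟨j, hj⟩ := Function.ne_iff.mp hv
    have h3 : (0 : ℝ) < (v j : ℝ) ^ 2 := by
      have : (v j : ℝ) ≠ 0 := by exact_mod_cast hj
      positivity
    exact lt_of_lt_of_le h3 (Finset.single_le_sum (f := fun j => (v j : ℝ) ^ 2)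
      (fun j _ => sq_nonneg _) (Finset.mem_univ j))
  have h3 : 0 < c * eNorm v ^ (-δ) := by positivity
  simp at h1
  linarith

lemma propH : PropH Th := by
  intro q _ d P hP b hb ε hε
  refine ⟨_, outer P d hP b (rapid_sz b hb) (comb ε) (comb_le ε hε), fun s hs => ?_⟩
  rw [g0]
  apply tsum_congr
  rintro ⟨l, hl⟩
  have h1 := (chi_bound (comb ε l) (dir (comb ε l)) (dir_ne hl)).1
  show b l * FF P d (dir (comb ε l)) (av (comb ε l)) s =
    b l * latSeries P (Th.mulVec (fun j => (comb ε l j : ℝ))) s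
  rw [FF_eq hP _ _ h1 s (by exact_mod_cast hs), Th_mulVec]
  rfl

/-- **Negative answer to Q1.** For `n = 2` the matrix `√2 · 1` is not badly approximable but has
property (H). -/
theorem result : ∃ (n : ℕ) (Θ : Matrix (Fin n) (Fin n) ℝ), 1 ≤ n ∧ ¬ BadMat Θ ∧ PropH Θ :=
  ⟨2, Th, by norm_num, not_bad, propH⟩

end Pool.Agent.Results.MP_6f2e8a_an.NotNecessary
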